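import Pool.Agent.Q98.SPN.Stm

/-!
# Project GSP (helper834), package GOOD (helper399): many good sign patterns
-/

set_option autoImplicit false

open Finset
open scoped Matrix.Norms.L2Operator Matrix
open Pool.Agent.H172R2.GS
open Pool.Agent.Q98.SPN

namespace Pool.Agent.U399.GSP.GOOD

theorem t_GOOD : S_SM → S_WORD → S_TKN → S_GOOD := by
  intro hSM hWORD hTKN ι _ _ d N hN κ hκ J _ _ hJ A hA
  classical
  set m : ℕ := Fintype.card J with hm
  set M : ℝ := (2 * Real.exp 1 * κ * m) ^ κ with hM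
  have hM0 : 0 ≤ M := by positivity
  have hN0 : 0 ≤ N := le_trans (by positivity) hN
  set f : (J → Bool) → ℝ := fun ε => ∑ i, (d i : ℝ) * tk κ (XX (fun g => A g i) ε) with hf
  have hf0 : ∀ ε, 0 ≤ f ε := fun ε => Finset.sum_nonneg fun i _ =>
    mul_nonneg (Nat.cast_nonneg _) (hTKN _ _ _)
  have hsum : ∑ ε, f ε ≤ N * (2 ^ m * M) := by
    have h1 : ∑ ε, f ε = ∑ i, (d i : ℝ) * ∑ ε : J → Bool, tk κ (XX (fun g => A g i) ε) := by
      rw [hf]
      simp only
      rw [Finset.sum_comm]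
      exact Finset.sum_congr rfl fun i _ => by rw [Finset.mul_sum]
    rw [h1]
    calc ∑ i, (d i : ℝ) * ∑ ε : J → Bool, tk κ (XX (fun g => A g i) ε)
        ≤ ∑ i, (d i : ℝ) * ((d i : ℝ) * (2 ^ m * M)) := by
          refine Finset.sum_le_sum fun i _ => mul_le_mul_of_nonneg_left ?_ (Nat.cast_nonneg _)
          exact le_trans (hWORD J (d i) (fun g => A g i) κ (fun g => hA g i))
            (mul_le_mul_of_nonneg_left (hSM J κ hJ hκ) (Nat.cast_nonneg _))
      _ = ((∑ i, d i ^ 2 : ℕ) : ℝ) * (2 ^ m * M) := by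
          push_cast
          rw [Finset.sum_mul]
          exact Finset.sum_congr rfl fun i _ => by ring
      _ ≤ N * (2 ^ m * M) := mul_le_mul_of_nonneg_right hN (by positivity)
  refine ⟨Finset.univ.filter fun ε => f ε ≤ 2 * N * M, ?_, fun ε hε => (Finset.mem_filter.mp hε).2⟩
  by_contra hcon
  push Not at hcon
  have hcard : ((Finset.univ.filter fun ε => f ε ≤ 2 * N * M).card : ℝ) +
      ((Finset.univ.filter fun ε => ¬ f ε ≤ 2 * N * M).card : ℝ) = 2 ^ m := by
    have h2 := Finset.card_filter_add_card_filter_not (s := (Finset.univ : Finset (J → Bool)))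
      (fun ε => f ε ≤ 2 * N * M)
    have h3 : (Finset.univ : Finset (J → Bool)).card = 2 ^ m := by
      rw [Finset.card_univ, Fintype.card_fun, Fintype.card_bool]
    rw [h3] at h2
    exact_mod_cast h2
  have hbig : (2 : ℝ) ^ m / 2 < ((Finset.univ.filter fun ε => ¬ f ε ≤ 2 * N * M).card : ℝ) := by
    linarith
  have hne : (Finset.univ.filter fun ε => ¬ f ε ≤ 2 * N * M).Nonempty := by
    rw [← Finset.card_pos]
    have : (0 : ℝ) < ((Finset.univ.filter fun ε => ¬ f ε ≤ 2 * N * M).card : ℝ) :=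
      lt_of_le_of_lt (by positivity) hbig
    exact_mod_cast this
  have h4 : ((Finset.univ.filter fun ε => ¬ f ε ≤ 2 * N * M).card : ℝ) * (2 * N * M) <
      ∑ ε ∈ Finset.univ.filter (fun ε => ¬ f ε ≤ 2 * N * M), f ε := by
    rw [← nsmul_eq_mul, ← Finset.sum_const]
    exact Finset.sum_lt_sum_of_nonempty hne fun ε hε => not_le.mp (Finset.mem_filter.mp hε).2
  have h5 : ∑ ε ∈ Finset.univ.filter (fun ε => ¬ f ε ≤ 2 * N * M), f ε ≤ ∑ ε, f ε :=
    Finset.sum_le_sum_of_subset_of_nonneg (Finset.filter_subset _ _) fun ε _ _ => hf0 ε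
  have h6 : (2 : ℝ) ^ m / 2 * (2 * N * M) ≤
      ((Finset.univ.filter fun ε => ¬ f ε ≤ 2 * N * M).card : ℝ) * (2 * N * M) :=
    mul_le_mul_of_nonneg_right hbig.le (by positivity)
  have h7 : (2 : ℝ) ^ m / 2 * (2 * N * M) = N * (2 ^ m * M) := by ring
  linarith

end Pool.Agent.U399.GSP.GOOD
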