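import Pool.Agent.U834.GSP.StmA

/-!
# Project GSP, package RCN: the norm of a real matrix does not change over the complex numbers
-/

set_option autoImplicit false

open scoped Matrix.Norms.L2Operator Matrix
open Finset

namespace Pool.Agent.U399.GSP.RCN

open Pool.Agent.U834.GSP

variable {ι : Type} [Fintype ι] [DecidableEq ι]

omit [DecidableEq ι] in
/-- the mapped matrix acts on real and imaginary parts separately -/
lemma mulVec_re_im (A : Matrix ι ι ℝ) (x : ι → ℂ) (i : ι) :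
    ((A.map (fun x : ℝ => (x : ℂ))) *ᵥ x) i
      = (((A *ᵥ (fun j => (x j).re)) i : ℝ) : ℂ) + (((A *ᵥ (fun j => (x j).im)) i : ℝ) : ℂ) * Complex.I := by
  simp only [Matrix.mulVec, dotProduct, Matrix.map_apply, Complex.ofReal_sum, Complex.ofReal_mul,
    Finset.sum_mul, ← Finset.sum_add_distrib]
  refine Finset.sum_congr rfl fun j _ => ?_
  conv_lhs => rw [← Complex.re_add_im (x j)]
  ring

lemma norm_sq_add_mul_I (a b : ℝ) : ‖(a : ℂ) + (b : ℂ) * Complex.I‖ ^ 2 = a ^ 2 + b ^ 2 := by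
  rw [← Complex.normSq_eq_norm_sq, Complex.normSq_add_mul_I]

lemma real_bound (A : Matrix ι ι ℝ) (u : ι → ℝ) :
    ∑ i, ((A *ᵥ u) i) ^ 2 ≤ ‖A‖ ^ 2 * ∑ i, (u i) ^ 2 := by
  have h := Matrix.l2_opNorm_mulVec A (WithLp.toLp 2 u)
  have h0 : (0 : ℝ) ≤ ‖A‖ := norm_nonneg _
  have h2 := pow_le_pow_left₀ (norm_nonneg _) h 2
  rw [mul_pow, EuclideanSpace.norm_sq_eq, EuclideanSpace.norm_sq_eq] at h2
  simpa [Real.norm_eq_abs, sq_abs] using h2

lemma complex_bound (A : Matrix ι ι ℂ) (u : ι → ℂ) :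
    ∑ i, ‖(A *ᵥ u) i‖ ^ 2 ≤ ‖A‖ ^ 2 * ∑ i, ‖u i‖ ^ 2 := by
  have h := Matrix.l2_opNorm_mulVec A (WithLp.toLp 2 u)
  have h0 : (0 : ℝ) ≤ ‖A‖ := norm_nonneg _
  have h2 := pow_le_pow_left₀ (norm_nonneg _) h 2
  rw [mul_pow, EuclideanSpace.norm_sq_eq, EuclideanSpace.norm_sq_eq] at h2
  simpa using h2

theorem t_RCN : S_RCN := by
  intro ι _ _ A
  apply le_antisymm
  · rw [Matrix.cstar_norm_def (A.map (fun x : ℝ => (x : ℂ)))]
    refine ContinuousLinearMap.opNorm_le_bound _ (norm_nonneg _) fun x => ?_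
    refine le_of_sq_le_sq ?_ (by positivity)
    rw [mul_pow, EuclideanSpace.norm_sq_eq, EuclideanSpace.norm_sq_eq]
    have e1 : ∀ i, ‖(Matrix.toEuclideanCLM (𝕜 := ℂ) (A.map (fun x : ℝ => (x : ℂ))) x) i‖ ^ 2
        = ((A *ᵥ (fun j => (x j).re)) i) ^ 2 + ((A *ᵥ (fun j => (x j).im)) i) ^ 2 := by
      intro i
      rw [← norm_sq_add_mul_I, ← mulVec_re_im]
      rfl
    have e2 : ∀ i, ‖x i‖ ^ 2 = ((x i).re) ^ 2 + ((x i).im) ^ 2 := by
      intro i
      rw [← norm_sq_add_mul_I, Complex.re_add_im]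
    rw [Finset.sum_congr rfl fun i _ => e1 i, Finset.sum_congr rfl fun i _ => e2 i,
      Finset.sum_add_distrib, Finset.sum_add_distrib, mul_add]
    exact add_le_add (real_bound A _) (real_bound A _)
  · rw [Matrix.cstar_norm_def A]
    refine ContinuousLinearMap.opNorm_le_bound _ (norm_nonneg _) fun x => ?_
    refine le_of_sq_le_sq ?_ (by positivity)
    rw [mul_pow, EuclideanSpace.norm_sq_eq, EuclideanSpace.norm_sq_eq]
    have h := complex_bound (A.map (fun x : ℝ => (x : ℂ))) (fun i => ((x i : ℝ) : ℂ))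
    have e1 : ∀ i, ‖((A.map (fun x : ℝ => (x : ℂ))) *ᵥ (fun i => ((x i : ℝ) : ℂ))) i‖ ^ 2
        = ‖(Matrix.toEuclideanCLM (𝕜 := ℝ) A x) i‖ ^ 2 := by
      intro i
      rw [mulVec_re_im, norm_sq_add_mul_I]
      have h0 : (A *ᵥ (fun j => ((x j : ℝ) : ℂ).im)) i = 0 := by
        simp [Matrix.mulVec, dotProduct]
      rw [h0, Real.norm_eq_abs, sq_abs]
      simp only [Complex.ofReal_re]
      simp
    have e2 : ∀ i, ‖((x i : ℝ) : ℂ)‖ ^ 2 = ‖x i‖ ^ 2 := by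
      intro i
      rw [Complex.norm_real]
    rw [Finset.sum_congr rfl fun i _ => e1 i, Finset.sum_congr rfl fun i _ => e2 i] at h
    exact h

end Pool.Agent.U399.GSP.RCN
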